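import Pool.Agent.helper7.AL.SpecM

set_option autoImplicit false

namespace Pool.Agent.AL

open Finset Pool.Agent.helper85.FC Pool.Agent.helper11.MK

theorem MJA_crt (P : ℕ) (g : ℤ) (r : ℕ → ℤ) (S : Finset ℕ) (hS : ∀ l ∈ S, l.Prime) (hP : ∀ l ∈ S, ¬ l ∣ P) :
    ∃ c : ℤ, (P : ℤ) ∣ c - g ∧ ∀ l ∈ S, (l : ℤ) ∣ c - r l := by
  classical
  induction S using Finset.induction_on with
  | empty => exact ⟨g, by simp, by simp⟩
  | insert l S hl ih =>
    obtain ⟨c, hc1, hc2⟩ := ih (fun x hx => hS x (mem_insert_of_mem hx)) (fun x hx => hP x (mem_insert_of_mem hx))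
    have hlp := hS l (mem_insert_self _ _)
    have hcop : Nat.Coprime l (P * ∏ x ∈ S, x) := by
      rw [hlp.coprime_iff_not_dvd]
      intro hd
      rcases hlp.dvd_mul.1 hd with h | h
      · exact hP l (mem_insert_self _ _) h
      · obtain ⟨x, hx, hlx⟩ := (hlp.prime.dvd_finset_prod_iff _).1 h
        have h2 := (Nat.prime_dvd_prime_iff_eq hlp (hS x (mem_insert_of_mem hx))).1 hlx
        exact hl (h2 ▸ hx)
    obtain ⟨s, t, hst⟩ := Nat.isCoprime_iff_coprime.2 hcop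
    refine ⟨c + ((P * ∏ x ∈ S, x : ℕ) : ℤ) * (t * (r l - c)), ?_, ?_⟩
    · have e : c + ((P * ∏ x ∈ S, x : ℕ) : ℤ) * (t * (r l - c)) - g
          = (c - g) + ((P * ∏ x ∈ S, x : ℕ) : ℤ) * (t * (r l - c)) := by ring
      rw [e]
      exact dvd_add hc1 ((Int.natCast_dvd_natCast.2 (Nat.dvd_mul_right _ _)).mul_right _)
    · intro x hx
      rcases mem_insert.1 hx with rfl | hx
      · have e : c + ((P * ∏ y ∈ S, y : ℕ) : ℤ) * (t * (r x - c)) - r x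
            = (c - r x) * (1 - t * ((P * ∏ y ∈ S, y : ℕ) : ℤ)) := by ring
        rw [e, ← hst]
        have e2 : (c - r x) * (s * (x : ℤ) + t * ((P * ∏ y ∈ S, y : ℕ) : ℤ) - t * ((P * ∏ y ∈ S, y : ℕ) : ℤ))
            = (x : ℤ) * ((c - r x) * s) := by ring
        rw [e2]
        exact dvd_mul_right _ _
      · have e : c + ((P * ∏ x ∈ S, x : ℕ) : ℤ) * (t * (r l - c)) - r x
            = (c - r x) + ((P * ∏ x ∈ S, x : ℕ) : ℤ) * (t * (r l - c)) := by ring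
        rw [e]
        refine dvd_add (hc2 x hx) (Dvd.dvd.mul_right (Int.natCast_dvd_natCast.2 ?_) _)
        exact (dvd_prod_of_mem _ hx).mul_left _

theorem MJA_class (l κ : ℕ) (B : Finset ℤ) (hB : #B ≤ κ) (hl : κ < l) :
    ∃ r : ℤ, ∀ β ∈ B, ¬ (l : ℤ) ∣ r - β := by
  classical
  have h1 : #(B.image (fun β => β % (l : ℤ))) < #(Ico (0 : ℤ) l) := by
    rw [Int.card_Ico]
    refine lt_of_le_of_lt card_image_le ?_
    simpa using lt_of_le_of_lt hB hl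
  obtain ⟨r, hr1, hr2⟩ := exists_mem_notMem_of_card_lt_card h1
  refine ⟨r, fun β hβ hd => hr2 (mem_image.2 ⟨β, hβ, ?_⟩)⟩
  rw [mem_Ico] at hr1
  have h3 : r % (l : ℤ) = β % (l : ℤ) := (Int.emod_emod_of_dvd r (dvd_refl _) ▸ Int.emod_emod_of_dvd r (dvd_refl _)) ▸
    (Int.ModEq.symm ((Int.modEq_iff_dvd).2 hd))
  rw [← h3, Int.emod_eq_of_lt hr1.1 hr1.2]

theorem MJA_one (l J : ℕ) (hl : l.Prime) (M c β : ℤ) (hM : ¬ (l : ℤ) ∣ M) (hJ : J ≤ l) :
    #((Ioc 0 J).filter fun j : ℕ => (l : ℤ) ∣ c + (j : ℤ) * M - β) ≤ 1 := by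
  rw [card_le_one]
  intro j hj j' hj'
  rw [mem_filter, mem_Ioc] at hj hj'
  have h1 : (l : ℤ) ∣ ((j : ℤ) - j') * M := by
    have e : ((j : ℤ) - j') * M = (c + (j : ℤ) * M - β) - (c + (j' : ℤ) * M - β) := by ring
    rw [e]
    exact dvd_sub hj.2 hj'.2
  have hlp : Prime (l : ℤ) := Nat.prime_iff_prime_int.1 hl
  have h2 : (l : ℤ) ∣ (j : ℤ) - j' := (hlp.dvd_or_dvd h1).resolve_right hM
  have h3 : (j : ℤ) - j' = 0 := by
    refine Int.eq_zero_of_abs_lt_dvd h2 ?_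
    rw [abs_lt]
    constructor <;> omega
  omega

theorem MJA (h : OMG_stmt) : MJA_stmt := by
  classical
  intro κ q hκ hq1
  obtain ⟨C₀, hC₀⟩ := h (8 ^ κ)
  refine ⟨q * (2 * κ).factorial * C₀, ?_⟩
  intro m g B hm hB u
  set w : ℕ := #m.primeFactors with hw
  set P : ℕ := q * (2 * κ).factorial with hP
  have hPpos : 0 < P := Nat.mul_pos hq1 (Nat.factorial_pos _)
  set S : Finset ℕ := m.primeFactors.filter (fun l => (2 * κ < l ∧ ¬ l ∣ q) ∧ l ≤ κ * w) with hS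
  set Q : ℕ := ∏ l ∈ S, l with hQ
  have hSp : ∀ l ∈ S, l.Prime := fun l hl => Nat.prime_of_mem_primeFactors (mem_filter.1 hl).1
  have hQpos : 0 < Q := prod_pos fun l hl => (hSp l hl).pos
  have hnP : ∀ l : ℕ, l.Prime → 2 * κ < l ∧ ¬ l ∣ q → ¬ l ∣ P := by
    intro l hl hlk hd
    rcases hl.dvd_mul.1 hd with h1 | h1
    · exact hlk.2 h1
    · exact absurd ((hl.dvd_factorial).1 h1) (not_le.2 hlk.1)
  have hQle : Q ≤ 4 ^ (κ * w) := by
    refine le_trans ?_ (primorial_le_four_pow (κ * w))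
    unfold primorial
    refine prod_le_prod_of_subset_of_one_le' ?_ ?_
    · intro l hl
      rw [mem_filter, mem_range]
      exact ⟨Nat.lt_succ_of_le (mem_filter.1 hl).2.2, hSp l hl⟩
    · intro l hl _
      exact (mem_filter.1 hl).2.one_lt.le
  -- classes
  have hcl : ∀ l : ℕ, ∃ r : ℤ, 2 * κ < l → ∀ β ∈ B l, ¬ (l : ℤ) ∣ r - β := by
    intro l
    by_cases hl : 2 * κ < l
    · obtain ⟨r, hr⟩ := MJA_class l κ (B l) (hB l) (by omega)
      exact ⟨r, fun _ => hr⟩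
    · exact ⟨0, fun h => absurd h hl⟩
  choose r hr using hcl
  obtain ⟨c₁, hc1, hc2⟩ := MJA_crt P g r S hSp (fun l hl => hnP l (hSp l hl) (mem_filter.1 hl).2.1)
  have hPQ : (0 : ℤ) < (P : ℤ) * Q := by
    have : 0 < P * Q := Nat.mul_pos hPpos hQpos
    exact_mod_cast this
  set c' : ℤ := u - (u - c₁) % ((P : ℤ) * Q) with hc'
  have hc'1 : u - (P : ℤ) * Q < c' := by
    have := Int.emod_lt_of_pos (u - c₁) hPQ
    rw [hc']; linarith
  have hc'2 : c' ≤ u := by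
    have := Int.emod_nonneg (u - c₁) hPQ.ne'
    rw [hc']; linarith
  have hc'3 : c' - c₁ = (P : ℤ) * Q * ((u - c₁) / ((P : ℤ) * Q)) := by
    have := Int.emod_add_mul_ediv (u - c₁) ((P : ℤ) * Q)
    rw [hc']; linarith
  -- the good j
  set T : Finset ℕ := m.primeFactors.filter (fun l => (2 * κ < l ∧ ¬ l ∣ q) ∧ κ * w < l) with hT
  have hTP : ∀ l ∈ T, ¬ (l : ℤ) ∣ (P : ℤ) * Q := by
    intro l hl hd
    have hlp := Nat.prime_of_mem_primeFactors (mem_filter.1 hl).1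
    have hd' : l ∣ P * Q := by exact_mod_cast hd
    rcases hlp.dvd_mul.1 hd' with h1 | h1
    · exact hnP l hlp (mem_filter.1 hl).2.1 h1
    · obtain ⟨x, hx, hlx⟩ := (hlp.prime.dvd_finset_prod_iff _).1 h1
      have h2 := (Nat.prime_dvd_prime_iff_eq hlp (hSp x hx)).1 hlx
      have h3 := (mem_filter.1 hx).2.2
      have h4 := (mem_filter.1 hl).2.2
      omega
  set Bd : Finset ℕ := T.biUnion fun l => (B l).biUnion fun β =>
    {j ∈ Ioc 0 (κ * w + 1) | (l : ℤ) ∣ c' + (j : ℤ) * ((P : ℤ) * Q) - β} with hBd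
  have hBdc : #Bd ≤ w * κ := by
    refine (card_biUnion_le_card_mul T _ κ ?_).trans ?_
    · intro l hl
      refine (card_biUnion_le_card_mul (B l) _ 1 ?_).trans ?_
      · intro β hβ
        exact MJA_one l (κ * w + 1) (Nat.prime_of_mem_primeFactors (mem_filter.1 hl).1) _ _ _ (hTP l hl)
          (mem_filter.1 hl).2.2
      · rw [mul_one]; exact hB l
    · exact Nat.mul_le_mul_right _ (card_filter_le _ _)
  have hlt : #Bd < #(Ioc 0 (κ * w + 1)) := by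
    rw [Nat.card_Ioc]
    have : w * κ = κ * w := Nat.mul_comm _ _
    omega
  obtain ⟨j, hj1, hj2⟩ := exists_mem_notMem_of_card_lt_card hlt
  rw [mem_Ioc] at hj1
  have hj0 : (1 : ℤ) ≤ j := by exact_mod_cast hj1.1
  have hjJ : (j : ℤ) ≤ κ * w + 1 := by exact_mod_cast hj1.2
  refine ⟨c' + (j : ℤ) * ((P : ℤ) * Q), ?_, ?_, ?_, ?_⟩
  · nlinarith [mul_le_mul_of_nonneg_right hj0 hPQ.le]
  · have h1 : c' + (j : ℤ) * ((P : ℤ) * Q) ≤ u + ((κ : ℤ) * w + 1) * ((P : ℤ) * Q) :=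
      add_le_add hc'2 (mul_le_mul_of_nonneg_right hjJ hPQ.le)
    have h2 : (κ * w + 1) * (P * Q) ≤ P * (8 ^ κ) ^ w := by
      have e1 : κ * w + 1 ≤ 2 ^ (κ * w) := Nat.lt_two_pow_self
      have e2 : (8 ^ κ) ^ w = 2 ^ (κ * w) * 4 ^ (κ * w) := by
        rw [← pow_mul, ← mul_pow]
        norm_num
      calc (κ * w + 1) * (P * Q) ≤ 2 ^ (κ * w) * (P * 4 ^ (κ * w)) :=
            Nat.mul_le_mul e1 (Nat.mul_le_mul_left _ hQle)
        _ = P * (8 ^ κ) ^ w := by rw [e2]; ring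
    have h3 : (((κ * w + 1) * (P * Q) : ℕ) : ℝ) ≤ ((P * C₀ : ℕ) : ℝ) * √(m : ℝ) := by
      have h4 : (((κ * w + 1) * (P * Q) : ℕ) : ℝ) ≤ ((P * (8 ^ κ) ^ w : ℕ) : ℝ) := by exact_mod_cast h2
      refine h4.trans ?_
      have h5 := hC₀ m hm
      push_cast at h5 ⊢
      have h6 : (0 : ℝ) ≤ P := Nat.cast_nonneg _
      calc (P : ℝ) * ((8 : ℝ) ^ κ) ^ w ≤ P * (C₀ * √(m : ℝ)) := mul_le_mul_of_nonneg_left h5 h6
        _ = P * C₀ * √(m : ℝ) := by ring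
    have h7 : ((c' + (j : ℤ) * ((P : ℤ) * Q) : ℤ) : ℝ) ≤ ((u + ((κ : ℤ) * w + 1) * ((P : ℤ) * Q) : ℤ) : ℝ) := by
      exact_mod_cast h1
    refine h7.trans ?_
    push_cast at h3 ⊢
    linarith
  · have e : c' + (j : ℤ) * ((P : ℤ) * Q) - g = (c' - c₁) + (c₁ - g) + P * ((j : ℤ) * Q) := by ring
    rw [e, hc'3]
    refine dvd_add (dvd_add ?_ hc1) (dvd_mul_right _ _)
    exact (dvd_mul_right (P : ℤ) (Q : ℤ)).mul_right _
  · intro l hl hlk hlq β hβ hd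
    by_cases hlz : l ≤ κ * w
    · have hlS : l ∈ S := mem_filter.2 ⟨hl, ⟨hlk, hlq⟩, hlz⟩
      have hlQ : (l : ℤ) ∣ (P : ℤ) * Q := by
        have : l ∣ P * Q := (dvd_prod_of_mem _ hlS).mul_left _
        exact_mod_cast this
      refine hr l hlk β hβ ?_
      have e : r l - β = (c' + (j : ℤ) * ((P : ℤ) * Q) - β) - (c₁ - r l) - (c' - c₁) - ((P : ℤ) * Q) * j := by ring
      rw [e, hc'3]
      exact dvd_sub (dvd_sub (dvd_sub hd (hc2 l hlS)) (hlQ.mul_right _)) (hlQ.mul_right _)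
    · refine hj2 ?_
      rw [hBd, mem_biUnion]
      refine ⟨l, mem_filter.2 ⟨hl, ⟨hlk, hlq⟩, not_le.1 hlz⟩, ?_⟩
      rw [mem_biUnion]
      refine ⟨β, hβ, ?_⟩
      rw [mem_filter, mem_Ioc]
      exact ⟨hj1, hd⟩

end Pool.Agent.AL
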