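import Pool.Agent.helper7.AL.SpecG

/-!
# Project AL, row GGP: four clusters give a true case for one of three ratios
-/

set_option autoImplicit false

namespace Pool.Agent.AL

open Finset Pool.Agent.helper85.FC Pool.Agent.helper11.MK

theorem GGP_symm {v w : ℕ × ℤ} (h : Both v w) : Both w v :=
  Set.Infinite.mono (fun _ hn => ⟨hn.2, hn.1⟩) h

theorem GGP_lo (m n : ℕ) (hm : 0 < m) (hn : 0 < n) :
    0 < Nat.gcd m n ∧ Nat.gcd m n * lo m n = m ∧ Nat.gcd m n * lo n m = n ∧ 0 < lo m n ∧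
      0 < lo n m ∧ Nat.Coprime (lo m n) (lo n m) := by
  have hg : 0 < Nat.gcd m n := Nat.gcd_pos_of_pos_left n hm
  have e1 : Nat.gcd m n * lo m n = m := by
    unfold lo
    exact Nat.mul_div_cancel' (Nat.gcd_dvd_left m n)
  have e2 : Nat.gcd m n * lo n m = n := by
    unfold lo
    rw [Nat.gcd_comm n m]
    exact Nat.mul_div_cancel' (Nat.gcd_dvd_right m n)
  refine ⟨hg, e1, e2, ?_, ?_, ?_⟩
  · rcases Nat.eq_zero_or_pos (lo m n) with h | h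
    · rw [h, mul_zero] at e1; omega
    · exact h
  · rcases Nat.eq_zero_or_pos (lo n m) with h | h
    · rw [h, mul_zero] at e2; omega
    · exact h
  · unfold lo
    rw [Nat.gcd_comm n m]
    exact Nat.coprime_div_gcd_div_gcd hg

theorem GGP_np {G α β : ℕ} (hG : 0 < G) {x y : ℤ} (hV : (α : ℤ) * x ≠ β * y) {s t : ℕ}
    (hs : s = G * β) (ht : t = G * α) : (s : ℤ) * y ≠ (t : ℤ) * x := by
  subst hs
  subst ht
  push_cast
  intro h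
  apply hV
  have hG' : (G : ℤ) ≠ 0 := by exact_mod_cast hG.ne'
  have h2 : (G : ℤ) * ((α : ℤ) * x) = (G : ℤ) * ((β : ℤ) * y) := by linarith
  exact mul_left_cancel₀ hG' h2

theorem GGP_true (hT : TRC_stmt) {G α β : ℕ} (hG : 0 < G) (hα : 0 < α) (hβ : 0 < β)
    (hc : Nat.Coprime α β) {x y : ℤ} (hV : (α : ℤ) * x ≠ β * y) {s t : ℕ}
    (hs : s = G * β) (ht : t = G * α) (hB : Both (s, x) (t, y)) :
    TrueCase α β (α * x - β * y) := by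
  subst hs
  subst ht
  exact hT G α β x y hG hα hβ hc hV hB

theorem GGP_pos (α β κ D H : ℕ) (c z z' : ℤ) (hκ : 1 ≤ κ) (hle : α + β ≤ κ * H)
    (hz : |z| ≤ D) (hz' : |z'| ≤ D) (hc : (D : ℤ) * H < c) :
    0 < (κ : ℤ) * c + α * z - β * z' := by
  have hz1 : -(D : ℤ) ≤ z := (abs_le.1 hz).1
  have hz2 : z' ≤ (D : ℤ) := (abs_le.1 hz').2
  have hα : (0 : ℤ) ≤ α := Int.natCast_nonneg _
  have hβ : (0 : ℤ) ≤ β := Int.natCast_nonneg _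
  have hD : (0 : ℤ) ≤ D := Int.natCast_nonneg _
  have hκ' : (1 : ℤ) ≤ κ := by exact_mod_cast hκ
  have hle' : (α : ℤ) + β ≤ κ * H := by exact_mod_cast hle
  have h1 : (α : ℤ) * (-(D : ℤ)) ≤ α * z := mul_le_mul_of_nonneg_left hz1 hα
  have h2 : (β : ℤ) * z' ≤ β * D := mul_le_mul_of_nonneg_left hz2 hβ
  have h3 : (D : ℤ) * ((α : ℤ) + β) ≤ D * (κ * H) := mul_le_mul_of_nonneg_left hle' hD
  have h4 : (κ : ℤ) * ((D : ℤ) * H) < κ * c := mul_lt_mul_of_pos_left hc (by linarith)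
  nlinarith

theorem GGP (hTRC : TRC_stmt) (hGAR : GAR_stmt) : GGP_stmt := by
  classical
  intro k a b a₀ b₀ D X Y h h' hk ha hb hab ha₀ hb₀ hab₀ hX hY hXD hYD hbad hadm hc
  have haa : 0 < a * a₀ := Nat.mul_pos ha ha₀
  have hbb : 0 < b * b₀ := Nat.mul_pos hb hb₀
  have haa2 : 0 < a * a₀ ^ 2 := Nat.mul_pos ha (pow_pos ha₀ 2)
  have hbb2 : 0 < b * b₀ ^ 2 := Nat.mul_pos hb (pow_pos hb₀ 2)
  obtain ⟨hg, egA, egB, hA, hB0, hAB⟩ := GGP_lo (a * a₀) (b * b₀) haa hbb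
  obtain ⟨hg', egA', egB', hA', hB', hAB'⟩ := GGP_lo (a * a₀ ^ 2) (b * b₀ ^ 2) haa2 hbb2
  obtain ⟨hgle, κ, hκ1, hκ2, eκA, eκB⟩ := hGAR a b a₀ b₀ ha hb ha₀ hb₀ hab hab₀
  obtain ⟨g, hgdef⟩ : ∃ g, Nat.gcd (a * a₀) (b * b₀) = g := ⟨_, rfl⟩
  obtain ⟨g', hg'def⟩ : ∃ g', Nat.gcd (a * a₀ ^ 2) (b * b₀ ^ 2) = g' := ⟨_, rfl⟩
  obtain ⟨A, hAdef⟩ : ∃ A, lo (a * a₀) (b * b₀) = A := ⟨_, rfl⟩
  obtain ⟨B, hBdef⟩ : ∃ B, lo (b * b₀) (a * a₀) = B := ⟨_, rfl⟩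
  obtain ⟨A', hA'def⟩ : ∃ A', lo (a * a₀ ^ 2) (b * b₀ ^ 2) = A' := ⟨_, rfl⟩
  obtain ⟨B', hB'def⟩ : ∃ B', lo (b * b₀ ^ 2) (a * a₀ ^ 2) = B' := ⟨_, rfl⟩
  rw [hgdef] at hg egA egB hgle
  rw [hg'def] at hg' egA' egB'
  rw [hAdef] at egA hA hAB
  rw [hBdef] at egB hB0 hAB
  rw [hA'def] at egA' hA' hAB'
  rw [hB'def] at egB' hB' hAB'
  rw [hA'def, hAdef] at eκA
  rw [hB'def, hBdef] at eκB
  rw [hAdef, hBdef] at hc ⊢
  obtain ⟨c₁, hc₁⟩ : ∃ c₁ : ℤ, (A : ℤ) * h - B * h' = c₁ := ⟨_, rfl⟩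
  rw [hc₁] at hc ⊢
  have hcH : (D : ℤ) * ((A + B : ℕ) : ℤ) < c₁ := by push_cast; exact hc
  -- integer versions
  have zgA : (g : ℤ) * A = a * a₀ := by exact_mod_cast egA
  have zgB : (g : ℤ) * B = b * b₀ := by exact_mod_cast egB
  have zκA : (A' : ℤ) * b₀ = κ * A := by exact_mod_cast eκA
  have zκB : (B' : ℤ) * a₀ = κ * B := by exact_mod_cast eκB
  -- the bounds for the sizes
  have le1 : A + B ≤ b₀ * (A + B) := Nat.le_mul_of_pos_left _ hb₀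
  have le2 : A + B ≤ a₀ * (A + B) := Nat.le_mul_of_pos_left _ ha₀
  have le3 : a + b ≤ g * (A + B) := by
    rw [mul_add, egA, egB]
    exact add_le_add (Nat.le_mul_of_pos_right _ ha₀) (Nat.le_mul_of_pos_right _ hb₀)
  have le4 : A' + B' ≤ κ * (A + B) := by
    rw [mul_add, ← eκA, ← eκB]
    exact add_le_add (Nat.le_mul_of_pos_right _ hb₀) (Nat.le_mul_of_pos_right _ ha₀)
  -- the values of the four kinds of pairs
  have v02 : ∀ x x' : ℤ, (A : ℤ) * (b₀ * h + x) - B * (b₀ * h' + x') = b₀ * c₁ + A * x - B * x' := by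
    intro x x'
    rw [← hc₁]; ring
  have v13 : ∀ y y' : ℤ, (A : ℤ) * (a₀ * h + y) - B * (a₀ * h' + y') = a₀ * c₁ + A * y - B * y' := by
    intro y y'
    rw [← hc₁]; ring
  have v12 : ∀ y x : ℤ, (a : ℤ) * (a₀ * h + y) - b * (b₀ * h' + x) = g * c₁ + a * y - b * x := by
    intro y x
    have e1 : (g : ℤ) * c₁ = (g * A : ℤ) * h - (g * B : ℤ) * h' := by rw [← hc₁]; ring
    rw [e1, zgA, zgB]; ring
  have v03 : ∀ x y : ℤ, (A' : ℤ) * (b₀ * h + x) - B' * (a₀ * h' + y) = κ * c₁ + A' * x - B' * y := by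
    intro x y
    have e1 : (κ : ℤ) * c₁ = (κ * A : ℤ) * h - (κ * B : ℤ) * h' := by rw [← hc₁]; ring
    rw [e1, ← zκA, ← zκB]; ring
  have v01 : ∀ (e x y : ℤ), (a₀ : ℤ) * (b₀ * e + x) - b₀ * (a₀ * e + y) = a₀ * x - b₀ * y := by
    intro e x y; ring
  have n02 : ∀ x ∈ X, ∀ x' ∈ X, (A : ℤ) * (b₀ * h + x) ≠ B * (b₀ * h' + x') := by
    intro x hx x' hx' he
    have h1 := GGP_pos A B b₀ D (A + B) c₁ x x' hb₀ le1 (hXD x hx) (hXD x' hx') hcH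
    have h2 := v02 x x'
    linarith
  have n13 : ∀ y ∈ Y, ∀ y' ∈ Y, (A : ℤ) * (a₀ * h + y) ≠ B * (a₀ * h' + y') := by
    intro x hx x' hx' he
    have h1 := GGP_pos A B a₀ D (A + B) c₁ x x' ha₀ le2 (hYD x hx) (hYD x' hx') hcH
    have h2 := v13 x x'
    linarith
  have n12 : ∀ y ∈ Y, ∀ x ∈ X, (a : ℤ) * (a₀ * h + y) ≠ b * (b₀ * h' + x) := by
    intro y hy x hx he
    have h1 := GGP_pos a b g D (A + B) c₁ y x hg le3 (hYD y hy) (hXD x hx) hcH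
    have h2 := v12 y x
    linarith
  have n03 : ∀ x ∈ X, ∀ y ∈ Y, (A' : ℤ) * (b₀ * h + x) ≠ B' * (a₀ * h' + y) := by
    intro x hx y hy he
    have h1 := GGP_pos A' B' κ D (A + B) c₁ x y hκ1 le4 (hXD x hx) (hYD y hy) hcH
    have h2 := v03 x y
    linarith
  have n01 : ∀ e : ℤ, ∀ x ∈ X, ∀ y ∈ Y, (a₀ : ℤ) * (b₀ * e + x) ≠ b₀ * (a₀ * e + y) := by
    intro e x hx y hy he
    have h1 := (hbad x hx y hy).1.2.2.1
    have h2 := v01 e x y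
    apply h1
    linarith
  -- slopes
  have s0 : b * b₀ ^ 2 = (b * b₀) * b₀ := by ring
  have s1 : b * b₀ * a₀ = (b * b₀) * a₀ := rfl
  have s2 : a * a₀ * b₀ = (a * a₀) * b₀ := rfl
  have s3 : a * a₀ ^ 2 = (a * a₀) * a₀ := by ring
  have s02 : b * b₀ ^ 2 = (b₀ * g) * B := by rw [mul_assoc b₀ g B, egB]; ring
  have s20 : a * a₀ * b₀ = (b₀ * g) * A := by rw [mul_assoc b₀ g A, egA]; ring
  have s13 : b * b₀ * a₀ = (a₀ * g) * B := by rw [mul_assoc a₀ g B, egB]; ring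
  have s31 : a * a₀ ^ 2 = (a₀ * g) * A := by rw [mul_assoc a₀ g A, egA]; ring
  have s12 : b * b₀ * a₀ = (a₀ * b₀) * b := by ring
  have s21 : a * a₀ * b₀ = (a₀ * b₀) * a := by ring
  have s03 : b * b₀ ^ 2 = g' * B' := egB'.symm
  have s30 : a * a₀ ^ 2 = g' * A' := egA'.symm
  have hb₀g : 0 < b₀ * g := Nat.mul_pos hb₀ hg
  have ha₀g : 0 < a₀ * g := Nat.mul_pos ha₀ hg
  have ha₀b₀ : 0 < a₀ * b₀ := Nat.mul_pos ha₀ hb₀
  -- not proportional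
  have p01 : ∀ x ∈ X, ∀ y ∈ Y, ((b * b₀ ^ 2 : ℕ) : ℤ) * (a₀ * h + y) ≠ ((b * b₀ * a₀ : ℕ) : ℤ) * (b₀ * h + x) :=
    fun x hx y hy => GGP_np hbb (n01 h x hx y hy) s0 s1
  have p23 : ∀ x ∈ X, ∀ y ∈ Y, ((a * a₀ * b₀ : ℕ) : ℤ) * (a₀ * h' + y) ≠ ((a * a₀ ^ 2 : ℕ) : ℤ) * (b₀ * h' + x) :=
    fun x hx y hy => GGP_np haa (n01 h' x hx y hy) s2 s3
  have p02 : ∀ x ∈ X, ∀ x' ∈ X, ((b * b₀ ^ 2 : ℕ) : ℤ) * (b₀ * h' + x') ≠ ((a * a₀ * b₀ : ℕ) : ℤ) * (b₀ * h + x) :=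
    fun x hx x' hx' => GGP_np hb₀g (n02 x hx x' hx') s02 s20
  have p13 : ∀ y ∈ Y, ∀ y' ∈ Y, ((b * b₀ * a₀ : ℕ) : ℤ) * (a₀ * h' + y') ≠ ((a * a₀ ^ 2 : ℕ) : ℤ) * (a₀ * h + y) :=
    fun x hx x' hx' => GGP_np ha₀g (n13 x hx x' hx') s13 s31
  have p12 : ∀ y ∈ Y, ∀ x ∈ X, ((b * b₀ * a₀ : ℕ) : ℤ) * (b₀ * h' + x) ≠ ((a * a₀ * b₀ : ℕ) : ℤ) * (a₀ * h + y) :=
    fun y hy x hx => GGP_np ha₀b₀ (n12 y hy x hx) s12 s21
  have p03 : ∀ x ∈ X, ∀ y ∈ Y, ((b * b₀ ^ 2 : ℕ) : ℤ) * (a₀ * h' + y) ≠ ((a * a₀ ^ 2 : ℕ) : ℤ) * (b₀ * h + x) :=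
    fun x hx y hy => GGP_np hg' (n03 x hx y hy) s03 s30
  -- the conclusions
  have f01 : ∀ x ∈ X, ∀ y ∈ Y, Both (b * b₀ ^ 2, b₀ * h + x) (b * b₀ * a₀, a₀ * h + y) → False := by
    intro x hx y hy hBo
    have h1 := GGP_true hTRC hbb ha₀ hb₀ hab₀ (n01 h x hx y hy) s0 s1 hBo
    rw [v01] at h1
    exact (hbad x hx y hy).2 h1
  have f23 : ∀ x ∈ X, ∀ y ∈ Y, Both (a * a₀ * b₀, b₀ * h' + x) (a * a₀ ^ 2, a₀ * h' + y) → False := by
    intro x hx y hy hBo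
    have h1 := GGP_true hTRC haa ha₀ hb₀ hab₀ (n01 h' x hx y hy) s2 s3 hBo
    rw [v01] at h1
    exact (hbad x hx y hy).2 h1
  have f02 : ∀ x ∈ X, ∀ x' ∈ X, Both (b * b₀ ^ 2, b₀ * h + x) (a * a₀ * b₀, b₀ * h' + x') →
      ∃ j ≤ 2, ∃ κ : ℕ, 1 ≤ κ ∧ κ ≤ a₀ * b₀ ∧ Hit a b a₀ b₀ D c₁ j κ := by
    intro x hx x' hx' hBo
    have h1 := GGP_true hTRC hb₀g hA hB0 hAB (n02 x hx x' hx') s02 s20 hBo
    rw [v02] at h1
    refine ⟨1, by omega, b₀, hb₀, Nat.le_mul_of_pos_left _ ha₀, ?_⟩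
    unfold Hit
    rw [pow_one, pow_one, hAdef, hBdef]
    exact ⟨le1, x, x', hXD x hx, hXD x' hx', h1⟩
  have f13 : ∀ y ∈ Y, ∀ y' ∈ Y, Both (b * b₀ * a₀, a₀ * h + y) (a * a₀ ^ 2, a₀ * h' + y') →
      ∃ j ≤ 2, ∃ κ : ℕ, 1 ≤ κ ∧ κ ≤ a₀ * b₀ ∧ Hit a b a₀ b₀ D c₁ j κ := by
    intro x hx x' hx' hBo
    have h1 := GGP_true hTRC ha₀g hA hB0 hAB (n13 x hx x' hx') s13 s31 hBo
    rw [v13] at h1
    refine ⟨1, by omega, a₀, ha₀, Nat.le_mul_of_pos_right _ hb₀, ?_⟩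
    unfold Hit
    rw [pow_one, pow_one, hAdef, hBdef]
    exact ⟨le2, x, x', hYD x hx, hYD x' hx', h1⟩
  have f12 : ∀ y ∈ Y, ∀ x ∈ X, Both (b * b₀ * a₀, a₀ * h + y) (a * a₀ * b₀, b₀ * h' + x) →
      ∃ j ≤ 2, ∃ κ : ℕ, 1 ≤ κ ∧ κ ≤ a₀ * b₀ ∧ Hit a b a₀ b₀ D c₁ j κ := by
    intro y hy x hx hBo
    have h1 := GGP_true hTRC ha₀b₀ ha hb hab (n12 y hy x hx) s12 s21 hBo
    rw [v12] at h1
    refine ⟨0, by omega, g, hg, hgle, ?_⟩
    have e1 : lo a b = a := by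
      unfold lo
      rw [hab.gcd_eq_one, Nat.div_one]
    have e2 : lo b a = b := by
      unfold lo
      rw [hab.symm.gcd_eq_one, Nat.div_one]
    unfold Hit
    rw [pow_zero, pow_zero, mul_one, mul_one, hAdef, hBdef, e1, e2]
    exact ⟨le3, y, x, hYD y hy, hXD x hx, h1⟩
  have f03 : ∀ x ∈ X, ∀ y ∈ Y, Both (b * b₀ ^ 2, b₀ * h + x) (a * a₀ ^ 2, a₀ * h' + y) →
      ∃ j ≤ 2, ∃ κ : ℕ, 1 ≤ κ ∧ κ ≤ a₀ * b₀ ∧ Hit a b a₀ b₀ D c₁ j κ := by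
    intro x hx y hy hBo
    have h1 := GGP_true hTRC hg' hA' hB' hAB' (n03 x hx y hy) s03 s30 hBo
    rw [v03] at h1
    refine ⟨2, le_rfl, κ, hκ1, hκ2, ?_⟩
    unfold Hit
    rw [hAdef, hBdef, hA'def, hB'def]
    exact ⟨le4, x, y, hXD x hx, hYD y hy, h1⟩
  -- the four clusters
  set U : Fin 4 → Finset ℤ := ![X, Y, X, Y] with hU
  set sl : Fin 4 → ℕ := ![b * b₀ ^ 2, b * b₀ * a₀, a * a₀ * b₀, a * a₀ ^ 2] with hsl
  set sh : Fin 4 → ℤ := ![b₀ * h, a₀ * h, b₀ * h', a₀ * h'] with hsh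
  have hinj : ∀ i, Function.Injective (fun z : ℤ => (sl i, sh i + z)) := by
    intro i z z' hz
    have := (Prod.mk.inj hz).2
    linarith
  have hslpos : ∀ i, 0 < sl i := by
    intro i
    fin_cases i
    · exact hbb2
    · exact Nat.mul_pos hbb ha₀
    · exact Nat.mul_pos haa hb₀
    · exact haa2
  have hUk : ∀ i, #(U i) = k := by
    intro i
    fin_cases i
    · exact hX
    · exact hY
    · exact hX
    · exact hY
  have hsame : ∀ (s : ℕ) (e z z' : ℤ), 0 < s → z ≠ z' →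
      (s : ℤ) * (e + z') ≠ (s : ℤ) * (e + z) := by
    intro s e z z' hs hv he
    apply hv
    have h1 : (s : ℤ) ≠ 0 := by exact_mod_cast hs.ne'
    have h2 := mul_left_cancel₀ h1 he
    linarith
  have hnp : ∀ i j, ∀ z ∈ U i, ∀ z' ∈ U j, (i ≠ j ∨ z ≠ z') →
      ((sl i : ℕ) : ℤ) * (sh j + z') ≠ ((sl j : ℕ) : ℤ) * (sh i + z) := by
    intro i j z hz z' hz' hor
    have hd : i = j → z ≠ z' := fun he => hor.resolve_left fun hn => hn he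
    fin_cases i <;> fin_cases j
    · exact hsame _ _ z z' hbb2 (hd rfl)
    · exact p01 z hz z' hz'
    · exact p02 z hz z' hz'
    · exact p03 z hz z' hz'
    · exact fun he => p01 z' hz' z hz he.symm
    · exact hsame _ _ z z' (Nat.mul_pos hbb ha₀) (hd rfl)
    · exact p12 z hz z' hz'
    · exact p13 z hz z' hz'
    · exact fun he => p02 z' hz' z hz he.symm
    · exact fun he => p12 z' hz' z hz he.symm
    · exact hsame _ _ z z' (Nat.mul_pos haa hb₀) (hd rfl)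
    · exact p23 z hz z' hz'
    · exact fun he => p03 z' hz' z hz he.symm
    · exact fun he => p13 z' hz' z hz he.symm
    · exact fun he => p23 z' hz' z hz he.symm
    · exact hsame _ _ z z' haa2 (hd rfl)
  obtain ⟨i, j, hij, v, hv, w, hw, hBo⟩ := hk (fun i => (U i).image (fun z : ℤ => (sl i, sh i + z)))
    (fun i => by rw [card_image_of_injective _ (hinj i)]; exact hUk i)
    (fun i j hij => by
      rw [disjoint_left]
      intro v hv hv'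
      obtain ⟨z, hz, rfl⟩ := mem_image.1 hv
      obtain ⟨z', hz', he⟩ := mem_image.1 hv'
      have h1 := (Prod.mk.inj he).1
      have h2 := (Prod.mk.inj he).2
      exact hnp i j z hz z' hz' (Or.inl hij) (by rw [h1, h2]))
    (fun i v hv => by
      obtain ⟨z, _, rfl⟩ := mem_image.1 hv
      exact hslpos i)
    (fun i j v hv w hw hvw => by
      obtain ⟨z, hz, rfl⟩ := mem_image.1 hv
      obtain ⟨z', hz', rfl⟩ := mem_image.1 hw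
      refine hnp i j z hz z' hz' ?_
      by_cases hij : i = j
      · right
        intro he
        apply hvw
        rw [hij, he]
      · exact Or.inl hij)
    (fun p hp => by
      obtain ⟨n, hn1, hn2⟩ := hadm p hp
      refine ⟨n, fun i v hv => ?_⟩
      obtain ⟨z, hz, rfl⟩ := mem_image.1 hv
      fin_cases i
      · exact (hn1 z hz).1
      · exact (hn2 z hz).1
      · exact (hn1 z hz).2
      · exact (hn2 z hz).2)
  obtain ⟨z, hz, rfl⟩ := mem_image.1 hv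
  obtain ⟨z', hz', rfl⟩ := mem_image.1 hw
  fin_cases i <;> fin_cases j
  · exact absurd rfl hij
  · exact (f01 z hz z' hz' hBo).elim
  · exact f02 z hz z' hz' hBo
  · exact f03 z hz z' hz' hBo
  · exact (f01 z' hz' z hz (GGP_symm hBo)).elim
  · exact absurd rfl hij
  · exact f12 z hz z' hz' hBo
  · exact f13 z hz z' hz' hBo
  · exact f02 z' hz' z hz (GGP_symm hBo)
  · exact f12 z' hz' z hz (GGP_symm hBo)
  · exact absurd rfl hij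
  · exact (f23 z hz z' hz' hBo).elim
  · exact f03 z' hz' z hz (GGP_symm hBo)
  · exact f13 z' hz' z hz (GGP_symm hBo)
  · exact (f23 z' hz' z hz (GGP_symm hBo)).elim
  · exact absurd rfl hij

end Pool.Agent.AL
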