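import Pool.Agent.helper7.AL.SpecL
import Pool.Agent.helper52.AL.MJA

/-!
# AL, row LQH: the residue classes for the ladder with modulus `q`
-/

set_option autoImplicit false

namespace Pool.Agent.LD

open Finset Pool.Agent.helper85.FC Pool.Agent.AT

theorem LQH (h : Pool.Agent.AL.MHS_stmt) : LQH_stmt := by
  classical
  intro q k w a b c' H hq hposs hne hcong hqx hadm
  obtain ⟨g₁, g₁', hg1, hg2⟩ := h q 1 a b 0 c' hq le_rfl (dvd_zero _) hposs
  choose h₀ hh₀ using hne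
  have hh₀m : h₀ ∈ Fintype.piFinset H := Fintype.mem_piFinset.2 hh₀
  have hn : ∀ l : ℕ, ∃ r : ℤ, l.Prime → l ∣ w.factorial → ∀ i, ∀ x ∈ H i, ¬ (l : ℤ) ∣ r + x := by
    intro l
    by_cases hl : l.Prime
    · obtain ⟨n, hn⟩ := hadm h₀ hh₀m l hl
      refine ⟨n, fun _ hlw i x hx hd => hn i ?_⟩
      have h1 : (l : ℤ) ∣ h₀ i - x := (Int.natCast_dvd_natCast.2 hlw).trans (hcong i _ (hh₀ i) _ hx)
      have e : ((fo (fun _ => 1) h₀ i).1 : ℤ) * n + (fo (fun _ => 1) h₀ i).2 = (n + x) + (h₀ i - x) := by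
        simp only [fo, Nat.cast_one]
        ring
      rw [e]
      exact dvd_add hd h1
    · exact ⟨0, fun h => absurd h hl⟩
  choose r hr using hn
  set S : Finset ℕ := {l ∈ range (w + 1) | l.Prime ∧ ¬ l ∣ q} with hS
  have hSp : ∀ l ∈ S, l.Prime := fun l hl => (mem_filter.1 hl).2.1
  have hSq : ∀ l ∈ S, ¬ l ∣ q := fun l hl => (mem_filter.1 hl).2.2
  have key : ∀ z : ℤ, (∀ l : ℕ, l.Prime → l ∣ q → ¬ (l : ℤ) ∣ z) → ∃ g : ℤ, (q : ℤ) ∣ g - z ∧
      ∀ l : ℕ, l.Prime → l ∣ q * w.factorial → ∀ i, ∀ x ∈ H i, ¬ (l : ℤ) ∣ g + x := by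
    intro z hz
    obtain ⟨g, hg, hgl⟩ := Pool.Agent.AL.MJA_crt q z r S hSp hSq
    refine ⟨g, hg, ?_⟩
    intro l hl hlq i x hx hd
    by_cases hlq' : l ∣ q
    · have hlq'' : (l : ℤ) ∣ q := Int.natCast_dvd_natCast.2 hlq'
      refine hz l hl hlq' ?_
      have e : z = (g + x) - (g - z) - x := by ring
      rw [e]
      exact dvd_sub (dvd_sub hd (hlq''.trans hg)) (hlq''.trans (hqx i x hx))
    · have hlw : l ∣ w.factorial := (hl.dvd_mul.1 hlq).resolve_left hlq'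
      have hlS : l ∈ S := by
        rw [hS, mem_filter, mem_range]
        exact ⟨Nat.lt_succ_of_le ((hl.dvd_factorial).1 hlw), hl, hlq'⟩
      refine hr l hl hlw i x hx ?_
      have e : r l + x = (g + x) - (g - r l) := by ring
      rw [e]
      exact dvd_sub hd (hgl l hlS)
  obtain ⟨g, hgz, hgg⟩ := key g₁ (fun l hl hlq => (hg2 l hl (hlq.trans (Nat.dvd_mul_right _ _))).1)
  obtain ⟨g', hgz', hgg'⟩ := key g₁' (fun l hl hlq => (hg2 l hl (hlq.trans (Nat.dvd_mul_right _ _))).2.2.1)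
  refine ⟨g, g', ?_, fun l hl hlq i x hx => ⟨hgg l hl hlq i x hx, hgg' l hl hlq i x hx⟩⟩
  have e : ((a : ℤ) * g - b * g') - c' = a * (g - g₁) - b * (g' - g₁') + ((a * g₁ - b * g₁') - c') := by ring
  rw [e]
  exact dvd_add (dvd_sub (hgz.mul_left _) (hgz'.mul_left _)) hg1

end Pool.Agent.LD
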